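import Pool.Agent.H201.Bn.Trans
import Pool.Graph.R_pool_sql_team_seeded_3997aac3.Results.MP_f720ae_an.FinitePermutations

/-! # Unrestricted boxes: all systems and one Bernoulli shift

Let `G` be the free nilpotent group of class `s` with `d` generators. The almost everywhere convergence of the
box averages of the problem, over unrestricted boxes in `k` parameters, for ALL systems of `d` maps which generate
a nilpotent group of class at most `s`, is equivalent to a uniform (metastable) rate on ONE system, the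
Bernoulli shift of `G` with base the circle (as a probability space: the unit interval). The rate must be uniform
in the functions only, and it is enough to have it for sets which depend on finitely many coordinates, and for
families of boxes with sides between `N` and `Φ(N)`.

For the averages of one function over the cubes, Conze's principle says that almost everywhere convergence on one
free ergodic system, for all functions, gives it for all systems. For multiple averages no such principle is known;
on Bernoulli shifts (they are Kolmogorov systems) the box averages for linear exponents are known to converge, so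
that such a principle would settle the question for linear exponents. The theorem says that what has to be added
is exactly the uniformity of the rate.

Proof: from convergence to uniform rates, and from finite systems to all systems: the library
(`FinitePermutations`). From the Bernoulli shift to finite systems `Y`: for a Følner set `F` let `g(ω) ∈ F` be the
place where the labels `ω_h`, `h ∈ F`, are smallest. The smallest labels of `F` and `F w` are most likely at the
same place, so that `ω ↦ g(ω)⁻¹ y`, with a random point `y` of `Y` read off from the label at `g(ω)`, is an almost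
equivariant map to `Y` with the uniform distribution. -/

set_option autoImplicit false

open MeasureTheory Filter Topology
open scoped ENNReal

namespace Pool.Agent.Results.MP_f720ae_an.BernoulliShift

variable {d k n : ℕ}

/-- The average over the box `[0, M_1) × ⋯ × [0, M_k)` of `∏_j f_j (T_1^(e_1j(m)) ⋯ T_d^(e_dj(m)) x)`. -/
noncomputable def avg {X : Type} (T : Fin d → Equiv.Perm X) (e : Fin d → Fin n → (Fin k → ℕ) → ℤ)
    (f : Fin n → X → ℝ) (x : X) (M : Fin k → ℕ) : ℝ :=
  (∏ l, (M l : ℝ))⁻¹ * ∑ m ∈ Fintype.piFinset (fun l => Finset.range (M l)),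
    ∏ j : Fin n, f j ((List.ofFn fun i : Fin d => T i ^ e i j m).prod x)

/-- Convergence almost everywhere, as `min M_l → ∞`, for all systems whose maps generate a nilpotent group of
class at most `s`. -/
def NilpotentMaps (s : ℕ) (e : Fin d → Fin n → (Fin k → ℕ) → ℤ) : Prop :=
  ∀ (X : Type) [MeasurableSpace X] (μ : Measure X) [IsProbabilityMeasure μ] (T : Fin d → Equiv.Perm X),
    (∀ i, Measurable (T i).symm) → (∀ i, MeasurePreserving (T i) μ μ) →
    (Subgroup.closure (Set.range T)).lowerCentralSeries s = ⊥ →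
    ∀ f : Fin n → X → ℝ, (∀ j, MemLp (f j) ∞ μ) → ∀ᵐ x ∂μ, ∃ L : ℝ, Tendsto (avg T e f x) atTop (𝓝 L)

/-- The free nilpotent group of class `s` with `d` generators. -/
abbrev FN (d s : ℕ) : Type := FreeGroup (Fin d) ⧸ (⊤ : Subgroup (FreeGroup (Fin d))).lowerCentralSeries s

/-- `S_j(m) = t_1 ^ (e_1j(m)) ⋯ t_d ^ (e_dj(m))` in this group, where the `t_i` are the generators. -/
def word (s : ℕ) (e : Fin d → Fin n → (Fin k → ℕ) → ℤ) (j : Fin n) (m : Fin k → ℕ) : FN d s :=
  (List.ofFn fun i : Fin d => ((FreeGroup.of i : FreeGroup (Fin d)) : FN d s) ^ e i j m).prod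

/-- The shift action on the configurations `ω : G → ℝ / ℤ`: `(g ω)(h) = ω(h g)`. -/
def shift {G : Type} [Group G] (g : G) (ω : G → UnitAddCircle) : G → UnitAddCircle := fun h => ω (h * g)

/-- The Bernoulli measure: the `ω(h)` are independent and uniformly distributed. -/
noncomputable def bernoulli (G : Type) : Measure (G → UnitAddCircle) :=
  Measure.infinitePi fun _ : G => (volume : Measure UnitAddCircle)

/-- The box averages on the Bernoulli shift. -/
noncomputable def bavg (s : ℕ) (e : Fin d → Fin n → (Fin k → ℕ) → ℤ) (f : Fin n → (FN d s → UnitAddCircle) → ℝ)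
    (ω : FN d s → UnitAddCircle) (M : Fin k → ℕ) : ℝ :=
  (∏ l, (M l : ℝ))⁻¹ * ∑ m ∈ Fintype.piFinset (fun l => Finset.range (M l)),
    ∏ j : Fin n, f j (shift (word s e j m) ω)

/-- The rate on the Bernoulli shift: `K` does not depend on the functions. -/
def BernoulliRate (s : ℕ) (e : Fin d → Fin n → (Fin k → ℕ) → ℤ) : Prop :=
  ∀ ε : ℝ, 0 < ε → ∀ Φ : ℕ → ℕ, ∃ K : ℕ,
    ∀ f : Fin n → (FN d s → UnitAddCircle) → ℝ, (∀ j, Measurable (f j)) → (∀ j ω, |f j ω| ≤ 1) →
      ∃ N, 1 ≤ N ∧ N ≤ K ∧ bernoulli (FN d s) {ω | ∃ M : Fin k → ℕ, (∀ l, N ≤ M l ∧ M l ≤ Φ N) ∧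
        ε < |bavg s e f ω M - bavg s e f ω fun _ => N|} ≤ ENNReal.ofReal ε

/-- A measurable set of configurations which depends on finitely many coordinates. -/
def LocalSet {G : Type} (A : Set (G → UnitAddCircle)) : Prop :=
  MeasurableSet A ∧ ∃ F : Finset G, ∀ ω ω' : G → UnitAddCircle, (∀ h ∈ F, ω h = ω' h) → (ω ∈ A ↔ ω' ∈ A)

/-- The share of the `m` in the box `M` for which `S_j(m) ω` is in `A_j` for all `j`. -/
noncomputable def share (s : ℕ) (e : Fin d → Fin n → (Fin k → ℕ) → ℤ) (A : Fin n → Set (FN d s → UnitAddCircle))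
    (ω : FN d s → UnitAddCircle) (M : Fin k → ℕ) : ℝ :=
  (Nat.card {m : Fin k → ℕ // (∀ l, m l < M l) ∧ ∀ j, shift (word s e j m) ω ∈ A j} : ℝ) / ∏ l, (M l : ℝ)

/-- The rate on the Bernoulli shift for sets which depend on finitely many coordinates. -/
def LocalRate (s : ℕ) (e : Fin d → Fin n → (Fin k → ℕ) → ℤ) : Prop :=
  ∀ ε : ℝ, 0 < ε → ∀ Φ : ℕ → ℕ, ∃ K : ℕ, ∀ A : Fin n → Set (FN d s → UnitAddCircle), (∀ j, LocalSet (A j)) →
    ∃ N, 1 ≤ N ∧ N ≤ K ∧ bernoulli (FN d s) {ω | ∃ M : Fin k → ℕ, (∀ l, N ≤ M l ∧ M l ≤ Φ N) ∧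
      ε < |share s e A ω M - share s e A ω fun _ => N|} ≤ ENNReal.ofReal ε

/-- The question, as in the frozen statement `S06743`. -/
def Question : Prop :=
  ∀ (d k n : ℕ) (X : Type) [MeasurableSpace X] (μ : MeasureTheory.Measure X)
    [MeasureTheory.IsProbabilityMeasure μ] (T : Fin d → Equiv.Perm X),
    (∀ i, Measurable (T i) ∧ Measurable (T i).symm ∧
      MeasureTheory.MeasurePreserving (T i) μ μ) →
    Group.IsNilpotent ↥(Subgroup.closure (Set.range T)) →
    ∀ (P : Fin d → Fin n → MvPolynomial (Fin k) ℤ) (f : Fin n → X → ℝ),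
    (∀ j, MeasureTheory.MemLp (f j) ⊤ μ) →
    ∀ᵐ x ∂μ, ∃ L : ℝ, Filter.Tendsto
      (fun M : Fin k → ℕ => (∏ j, (M j : ℝ))⁻¹ *
        ∑ m ∈ Fintype.piFinset (fun j => Finset.range (M j)),
          ∏ j : Fin n, f j ((List.ofFn (fun i : Fin d =>
            T i ^ (MvPolynomial.eval (fun l => ((m l : ℕ) : ℤ)) (P i j)))).prod x))
      Filter.atTop (nhds L)

lemma shift_mul {G : Type} [Group G] (g h : G) :
    (shift (g * h) : (G → UnitAddCircle) → _) = shift g ∘ shift h := by
  funext ω k
  simp [shift, mul_assoc]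

lemma shift_mp {G : Type} [Group G] (g : G) : MeasurePreserving (shift g) (bernoulli G) (bernoulli G) :=
  Pool.Agent.H201.Bn.bern_reindex (fun h => h * g) (mul_left_injective g)

instance (G : Type) : IsProbabilityMeasure (bernoulli G) := inferInstanceAs (IsProbabilityMeasure (Pool.Agent.H201.Bn.bern G))

/-- the shift as a homomorphism -/
def shiftHom (G : Type) [Group G] : G →* Equiv.Perm (G → UnitAddCircle) where
  toFun g := ⟨shift g, shift g⁻¹, fun ω => by
    rw [← Function.comp_apply (f := shift g⁻¹), ← shift_mul, inv_mul_cancel]; funext h; simp [shift], fun ω => by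
    rw [← Function.comp_apply (f := shift g), ← shift_mul, mul_inv_cancel]; funext h; simp [shift]⟩
  map_one' := by
    apply Equiv.ext
    intro ω
    funext h
    simp [shift]
  map_mul' g h := by
    apply Equiv.ext
    intro ω
    exact congrFun (shift_mul g h) ω

lemma uniform_bernoulli (s : ℕ) (e : Fin d → Fin n → (Fin k → ℕ) → ℤ) (h : FinitePermutations.UniformRate s e) :
    BernoulliRate s e := by
  intro ε hε Φ
  obtain ⟨K, hK⟩ := h ε hε Φ
  refine ⟨K, fun f hf hb => ?_⟩
  have h1 := hK (FN d s → UnitAddCircle) (bernoulli (FN d s))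
    (fun i => shiftHom (FN d s) (Pool.Agent.Q161.Ms.tt d s i))
    (fun i => (shift_mp (Pool.Agent.Q161.Ms.tt d s i)⁻¹).measurable) (fun i => shift_mp _)
    (Pool.Agent.Q161.Ms.fn_image (shiftHom (FN d s))) f hf hb
  have h2 : ∀ ω M, FinitePermutations.avg (fun i => shiftHom (FN d s) (Pool.Agent.Q161.Ms.tt d s i)) e f ω M =
      bavg s e f ω M := by
    intro ω M
    unfold FinitePermutations.avg bavg
    congr 1
    refine Finset.sum_congr rfl fun m _ => Finset.prod_congr rfl fun j _ => ?_
    congr 1
    have h3 := congrFun (Pool.Agent.Q161.Ms.gam_map (shiftHom (FN d s)) e j m) ω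
    exact h3.symm
  simp only [h2] at h1
  exact h1

lemma bavg_share (s : ℕ) (e : Fin d → Fin n → (Fin k → ℕ) → ℤ) (A : Fin n → Set (FN d s → UnitAddCircle))
    (ω : FN d s → UnitAddCircle) (M : Fin k → ℕ) :
    bavg s e (fun j => (A j).indicator 1) ω M = share s e A ω M := by
  classical
  unfold bavg share
  have h1 : Nat.card {m : Fin k → ℕ // (∀ l, m l < M l) ∧ ∀ j, shift (word s e j m) ω ∈ A j} =
      ((Fintype.piFinset (fun l => Finset.range (M l))).filter (fun m => ∀ j, shift (word s e j m) ω ∈ A j)).card := by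
    rw [Nat.subtype_card]
    intro m
    rw [Finset.mem_filter, Fintype.mem_piFinset]
    simp only [Finset.mem_range]
  rw [h1, Finset.card_eq_sum_ones, Finset.sum_filter, div_eq_inv_mul]
  push_cast
  congr 1
  refine Finset.sum_congr rfl fun m _ => ?_
  simp only [Set.indicator_apply, Pi.one_apply]
  by_cases h3 : ∀ j, shift (word s e j m) ω ∈ A j
  · rw [if_pos h3]
    exact Finset.prod_eq_one fun j _ => if_pos (h3 j)
  · rw [if_neg h3]
    push Not at h3
    obtain ⟨j, hj⟩ := h3
    exact Finset.prod_eq_zero (Finset.mem_univ j) (if_neg hj)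

lemma bernoulli_local (s : ℕ) (e : Fin d → Fin n → (Fin k → ℕ) → ℤ) (h : BernoulliRate s e) : LocalRate s e := by
  intro ε hε Φ
  obtain ⟨K, hK⟩ := h ε hε Φ
  refine ⟨K, fun A hA => ?_⟩
  have h1 := hK (fun j => (A j).indicator 1) (fun j => measurable_one.indicator (hA j).1) (by
    intro j x
    by_cases hx : x ∈ A j <;> simp [hx])
  simp only [bavg_share] at h1
  exact h1

lemma local_finitary (s : ℕ) (e : Fin d → Fin n → (Fin k → ℕ) → ℤ) (h : LocalRate s e) :
    Pool.Agent.Q161.Ms.FinG (fun M : Fin k → ℕ => (∏ j, (M j : ℝ))⁻¹)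
      (fun M => Fintype.piFinset (fun j => Finset.range (M j)))
      (Pool.Agent.Q161.Ms.gam (I := Fin k → ℕ) s e) (fun N R => Fintype.piFinset fun _ => Finset.Icc N R)
      (fun N _ => N) := by
  apply Pool.Agent.H201.Bn.loc_fin _ _ _ _ _ (Pool.Agent.Q161.Ms.fn_ft d s)
  intro ε hε Φ
  obtain ⟨K, hK⟩ := h ε hε Φ
  refine ⟨K, fun A hA => ?_⟩
  obtain ⟨N, hN1, hN2, hN3⟩ := hK A hA
  refine ⟨N, hN1, hN2, ?_⟩
  have h1 : ∀ ω M, Pool.Agent.Q161.Ms.av (fun M : Fin k → ℕ => (∏ j, (M j : ℝ))⁻¹)
      (fun M => Fintype.piFinset (fun j => Finset.range (M j)))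
      (fun j i => Pool.Agent.H201.Bn.shf (Pool.Agent.Q161.Ms.gam s e j i)) (fun j => (A j).indicator 1) ω M =
      share s e A ω M := fun ω M => bavg_share s e A ω M
  simp only [h1, dist_eq_norm, Real.norm_eq_abs, Fintype.mem_piFinset, Finset.mem_Icc]
  exact hN3

lemma local_nilpotent (s : ℕ) (e : Fin d → Fin n → (Fin k → ℕ) → ℤ) (h : LocalRate s e) : NilpotentMaps s e := by
  have h1 := Pool.Agent.Q161.Ms.fin_conv atTop (fun M : Fin k → ℕ => (∏ j, (M j : ℝ))⁻¹)
    (fun M => Fintype.piFinset (fun j => Finset.range (M j))) (by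
      intro t
      rw [Fintype.card_piFinset, norm_inv, Real.norm_of_nonneg (Finset.prod_nonneg fun j _ => Nat.cast_nonneg _)]
      simp only [Finset.card_range, Nat.cast_prod]
      exact inv_mul_le_one) (Pool.Agent.Q161.Ms.gam (I := Fin k → ℕ) s e)
      (fun N R => Fintype.piFinset fun _ => Finset.Icc N R) (fun N _ => N)
      (Pool.Agent.Q161.Ms.fn_ft d s) (by
      intro N
      filter_upwards [eventually_ge_atTop (fun _ : Fin k => N)] with t ht
      refine ⟨∑ l, t l, ?_⟩
      rw [Fintype.mem_piFinset]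
      intro l
      rw [Finset.mem_Icc]
      exact ⟨ht l, Finset.single_le_sum (fun _ _ => Nat.zero_le _) (Finset.mem_univ l)⟩) (by
      intro N R R' hR t ht
      rw [Fintype.mem_piFinset] at ht ⊢
      intro l
      have h2 := ht l
      rw [Finset.mem_Icc] at h2 ⊢
      exact ⟨h2.1, h2.2.trans hR⟩) (local_finitary s e h)
  have h2 := Pool.Agent.Q161.Ms.convG_convT s atTop _ _ e h1
  exact h2

/-- **The Bernoulli shift of the free nilpotent group decides the question.** For all `d`, `k`, `n`, `s` and
arbitrary exponents `e_ij : ℕ^k → ℤ` the three statements are equivalent. Hence the question of the problem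
has the answer yes if and only if `LocalRate` holds for all classes and all integer polynomials. -/
theorem result :
    (∀ (d k n s : ℕ) (e : Fin d → Fin n → (Fin k → ℕ) → ℤ),
      List.TFAE [NilpotentMaps s e, BernoulliRate s e, LocalRate s e]) ∧
    (Question ↔ ∀ (d k n s : ℕ) (P : Fin d → Fin n → MvPolynomial (Fin k) ℤ),
      LocalRate s fun i j m => MvPolynomial.eval (fun l => ((m l : ℕ) : ℤ)) (P i j)) := by
  have key : ∀ (d k n s : ℕ) (e : Fin d → Fin n → (Fin k → ℕ) → ℤ),
      List.TFAE [NilpotentMaps s e, BernoulliRate s e, LocalRate s e] := by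
    intro d k n s e
    tfae_have 1 → 2 := fun h => uniform_bernoulli s e ((FinitePermutations.equiv s e).1.1 h)
    tfae_have 2 → 3 := bernoulli_local s e
    tfae_have 3 → 1 := local_nilpotent s e
    tfae_finish
  refine ⟨key, ⟨fun hQ d k n s P => ?_, fun hF => ?_⟩⟩
  · refine ((key d k n s _).out 0 2).1 ?_
    intro X _ μ _ T hT1 hT2 hT3 f hf
    exact hQ d k n X μ T (fun i => ⟨(hT2 i).measurable, hT1 i, hT2 i⟩)
      (Subgroup.isNilpotent_iff_lowerCentralSeries _ |>.2 ⟨s, hT3⟩) P f hf
  · intro d k n X _ μ _ T hT hT3 P f hf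
    obtain ⟨s, hs⟩ := (Subgroup.isNilpotent_iff_lowerCentralSeries _).1 hT3
    have h1 : NilpotentMaps s (fun i j m => MvPolynomial.eval (fun l => ((m l : ℕ) : ℤ)) (P i j)) :=
      ((key d k n s _).out 0 2).2 (hF d k n s P)
    exact h1 X μ T (fun i => (hT i).2.1) (fun i => (hT i).2.2) hs f hf

end Pool.Agent.Results.MP_f720ae_an.BernoulliShift
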