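import Pool.Agent.H201.Cz.Gen
import Pool.Graph.R_pool_sql_team_seeded_3997aac3.Results.MP_f720ae_an.FinitePermutations

/-! # Unrestricted boxes: commuting maps and one irrational rotation of the circle

The almost everywhere convergence of the averages of the problem over unrestricted boxes in `k` parameters, for ALL
systems of `d` commuting maps, is equivalent to a uniform (metastable) rate for finite unions of arcs under the
multiples `x + a_i α` of ONE irrational rotation of the circle; the rate has to be uniform in the arcs and in the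
integers `a_i`, over all boxes with sides between `N` and `Φ(N)`. For a given rotation and given arcs the averages
converge everywhere and there is nothing to prove, so the whole question for commuting maps is this uniformity.

In particular the question for commuting maps is a question about powers `T ^ a_1, ..., T ^ a_d` of a single
map, with a rate that is uniform in the integers `a_i`; and a question about subsets of finite cyclic groups.

The exponents `e_ij(m)` may be arbitrary functions of the `k` parameters, for example polynomials as in the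
problem.

Proof: from almost everywhere convergence for all commuting maps to a uniform rate and to permutations of finite
sets by the library (`FinitePermutations`: compactness and finite models). Commuting permutations
`T_1, ..., T_d` of a finite set `Y` are modelled in the cyclic group of order `|Y| M ^ d`: the element
`v + |Y| (u_1 + u_2 M + ... + u_d M ^ (d-1))` with digits `0 ≤ u_i < M` stands for the point
`T_1 ^ u_1 ⋯ T_d ^ u_d y_v` and `T_i` for the addition of `|Y| M ^ (i-1)`. A cyclic group acts on the circle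
by a rational rotation, which is approximated by a multiple of the irrational one; subsets become arcs. -/

set_option autoImplicit false

open MeasureTheory Filter Topology
open scoped ENNReal

namespace Pool.Agent.Results.MP_f720ae_an.OneRotation

variable {d k n : ℕ}

/-- The average over the box `[0, M_1) × ⋯ × [0, M_k)` of `∏_j f_j (T_1^(e_1j(m)) ⋯ T_d^(e_dj(m)) x)`. -/
noncomputable def avg {X : Type} (T : Fin d → Equiv.Perm X) (e : Fin d → Fin n → (Fin k → ℕ) → ℤ)
    (f : Fin n → X → ℝ) (x : X) (M : Fin k → ℕ) : ℝ :=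
  (∏ l, (M l : ℝ))⁻¹ * ∑ m ∈ Fintype.piFinset (fun l => Finset.range (M l)),
    ∏ j : Fin n, f j ((List.ofFn fun i : Fin d => T i ^ e i j m).prod x)

/-- The averages converge almost everywhere, as `min M_l → ∞`, for all commuting maps and all bounded functions. -/
def CommutingMaps (e : Fin d → Fin n → (Fin k → ℕ) → ℤ) : Prop :=
  ∀ (X : Type) [MeasurableSpace X] (μ : Measure X) [IsProbabilityMeasure μ] (T : Fin d → Equiv.Perm X),
    (∀ i, Measurable (T i).symm) → (∀ i, MeasurePreserving (T i) μ μ) → (∀ i j, Commute (T i) (T j)) →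
    ∀ f : Fin n → X → ℝ, (∀ j, MemLp (f j) ∞ μ) → ∀ᵐ x ∂μ, ∃ L : ℝ, Tendsto (avg T e f x) atTop (𝓝 L)

/-- A rate for the powers `T ^ a_1, ..., T ^ a_d` of one map: `K` depends only on `e`, `ε` and `Φ`, and not on
the system, the map, the integers `a_i` and the functions. -/
def PowersOfOneMap (e : Fin d → Fin n → (Fin k → ℕ) → ℤ) : Prop :=
  ∀ ε : ℝ, 0 < ε → ∀ Φ : ℕ → ℕ, ∃ K : ℕ,
    ∀ (X : Type) [MeasurableSpace X] (μ : Measure X) [IsProbabilityMeasure μ] (T : Equiv.Perm X),
    Measurable T.symm → MeasurePreserving T μ μ → ∀ a : Fin d → ℤ,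
    ∀ f : Fin n → X → ℝ, (∀ j, Measurable (f j)) → (∀ j x, |f j x| ≤ 1) →
      ∃ N, 1 ≤ N ∧ N ≤ K ∧ μ {x | ∃ M : Fin k → ℕ, (∀ l, N ≤ M l ∧ M l ≤ Φ N) ∧
        ε < |avg (fun i => T ^ a i) e f x M - avg (fun i => T ^ a i) e f x fun _ => N|} ≤ ENNReal.ofReal ε

/-- The average over the box `[0, M_1) × ⋯ × [0, M_k)` of `∏_j f_j (x + ∑_i e_ij(m) a_i α)` on the circle. -/
noncomputable def circleAvg (α : ℝ) (a : Fin d → ℤ) (e : Fin d → Fin n → (Fin k → ℕ) → ℤ)
    (f : Fin n → UnitAddCircle → ℝ) (x : UnitAddCircle) (M : Fin k → ℕ) : ℝ :=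
  (∏ l, (M l : ℝ))⁻¹ * ∑ m ∈ Fintype.piFinset (fun l => Finset.range (M l)),
    ∏ j : Fin n, f j (x + (∑ i, e i j m * a i) • (α : UnitAddCircle))

/-- A rate for the multiples of the rotation by `α`, uniform in the integers `a_i` and in the bounded
measurable functions on the circle. -/
def RotationRate (α : ℝ) (e : Fin d → Fin n → (Fin k → ℕ) → ℤ) : Prop :=
  ∀ ε : ℝ, 0 < ε → ∀ Φ : ℕ → ℕ, ∃ K : ℕ, ∀ a : Fin d → ℤ,
    ∀ f : Fin n → UnitAddCircle → ℝ, (∀ j, Measurable (f j)) → (∀ j x, |f j x| ≤ 1) →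
      ∃ N, 1 ≤ N ∧ N ≤ K ∧ volume {x | ∃ M : Fin k → ℕ, (∀ l, N ≤ M l ∧ M l ≤ Φ N) ∧
        ε < |circleAvg α a e f x M - circleAvg α a e f x fun _ => N|} ≤ ENNReal.ofReal ε

/-- A finite union of arcs of the circle. -/
def FiniteUnionOfArcs (A : Set UnitAddCircle) : Prop :=
  ∃ S : Finset (ℝ × ℝ), A = ⋃ p ∈ S, (fun t : ℝ => (t : UnitAddCircle)) '' Set.Ico p.1 p.2

/-- The share of the `m` in the box `M` for which `x + ∑_i e_ij(m) a_i` is in `A_j` for all `j`. -/
noncomputable def share {H : Type} [AddCommGroup H] (e : Fin d → Fin n → (Fin k → ℕ) → ℤ) (a : Fin d → H)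
    (A : Fin n → Set H) (x : H) (M : Fin k → ℕ) : ℝ :=
  (Nat.card {m : Fin k → ℕ // (∀ l, m l < M l) ∧ ∀ j, x + ∑ i, e i j m • a i ∈ A j} : ℝ) / ∏ l, (M l : ℝ)

/-- A rate for the multiples of the rotation by `α`, uniform in the integers `a_i` and in the sets, which are
finite unions of arcs. -/
def ArcRate (α : ℝ) (e : Fin d → Fin n → (Fin k → ℕ) → ℤ) : Prop :=
  ∀ ε : ℝ, 0 < ε → ∀ Φ : ℕ → ℕ, ∃ K : ℕ, ∀ (a : Fin d → ℤ) (A : Fin n → Set UnitAddCircle),
    (∀ j, FiniteUnionOfArcs (A j)) → ∃ N, 1 ≤ N ∧ N ≤ K ∧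
      volume {x : UnitAddCircle | ∃ M : Fin k → ℕ, (∀ l, N ≤ M l ∧ M l ≤ Φ N) ∧
        ε < |share e (fun i => a i • (α : UnitAddCircle)) A x M -
          share e (fun i => a i • (α : UnitAddCircle)) A x fun _ => N|} ≤ ENNReal.ofReal ε

/-- A rate for the finite cyclic groups `ℤ / Q`, uniform in `Q`, in the elements `a_i` and in the sets. -/
def CyclicRate (e : Fin d → Fin n → (Fin k → ℕ) → ℤ) : Prop :=
  ∀ ε : ℝ, 0 < ε → ∀ Φ : ℕ → ℕ, ∃ K : ℕ, ∀ Q : ℕ, 0 < Q → ∀ (a : Fin d → ZMod Q) (A : Fin n → Set (ZMod Q)),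
    ∃ N, 1 ≤ N ∧ N ≤ K ∧
      (Nat.card {x : ZMod Q // ∃ M : Fin k → ℕ, (∀ l, N ≤ M l ∧ M l ≤ Φ N) ∧
        ε < |share e a A x M - share e a A x fun _ => N|} : ℝ) ≤ ε * Q

/-- the weights -/
noncomputable abbrev wt (k : ℕ) : (Fin k → ℕ) → ℝ := fun M => (∏ j, (M j : ℝ))⁻¹

/-- the boxes -/
abbrev bx (k : ℕ) : (Fin k → ℕ) → Finset (Fin k → ℕ) := fun M => Fintype.piFinset (fun j => Finset.range (M j))

/-- the windows -/
abbrev wd (k : ℕ) : ℕ → ℕ → Finset (Fin k → ℕ) := fun N R => Fintype.piFinset fun _ => Finset.Icc N R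

lemma share_av {H : Type} [AddCommGroup H] (e : Fin d → Fin n → (Fin k → ℕ) → ℤ) (a : Fin d → H)
    (A : Fin n → Set H) (x : H) (M : Fin k → ℕ) :
    Pool.Agent.Q161.Ms.av (wt k) (bx k) (Pool.Agent.H201.Cz.Gen.tr e a) (fun j => (A j).indicator 1) x M =
      share e a A x M := by
  classical
  unfold Pool.Agent.Q161.Ms.av share
  have h1 : Nat.card {m : Fin k → ℕ // (∀ l, m l < M l) ∧ ∀ j, x + ∑ i, e i j m • a i ∈ A j} =
      ((Fintype.piFinset (fun l => Finset.range (M l))).filter (fun m => ∀ j, x + ∑ i, e i j m • a i ∈ A j)).card := by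
    rw [Nat.subtype_card]
    intro m
    rw [Finset.mem_filter, Fintype.mem_piFinset]
    simp only [Finset.mem_range]
  rw [h1, Finset.card_eq_sum_ones, Finset.sum_filter, div_eq_inv_mul]
  push_cast
  congr 1
  refine Finset.sum_congr rfl fun m _ => ?_
  have h2 : ∀ j, Pool.Agent.H201.Cz.Gen.tr e a j m x = x + ∑ i, e i j m • a i := fun j => rfl
  simp only [h2, Set.indicator_apply, Pi.one_apply]
  by_cases h3 : ∀ j, x + ∑ i, e i j m • a i ∈ A j
  · rw [if_pos h3]
    exact Finset.prod_eq_one fun j _ => if_pos (h3 j)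
  · rw [if_neg h3]
    push Not at h3
    obtain ⟨j, hj⟩ := h3
    exact Finset.prod_eq_zero (Finset.mem_univ j) (if_neg hj)

lemma arc_iff (α : ℝ) (e : Fin d → Fin n → (Fin k → ℕ) → ℤ) (h : ArcRate α e) :
    Pool.Agent.H201.Cz.Gen.ArcR α (wt k) (bx k) e (wd k) (fun N _ => N) := by
  unfold Pool.Agent.H201.Cz.Gen.ArcR
  simp only [share_av, dist_eq_norm, Real.norm_eq_abs, Fintype.mem_piFinset, Finset.mem_Icc]
  exact h

lemma cyc_iff (e : Fin d → Fin n → (Fin k → ℕ) → ℤ) :
    Pool.Agent.H201.Cz.Gen.CycR (wt k) (bx k) e (wd k) (fun N _ => N) ↔ CyclicRate e := by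
  unfold Pool.Agent.H201.Cz.Gen.CycR CyclicRate
  simp only [share_av, dist_eq_norm, Real.norm_eq_abs, Fintype.mem_piFinset, Finset.mem_Icc]

lemma cyc_finitary (e : Fin d → Fin n → (Fin k → ℕ) → ℤ) (h : CyclicRate e) : FinitePermutations.Finitary 1 e := by
  have h1 := Pool.Agent.H201.Cz.Gen.cyc_fin _ _ _ _ _ ((cyc_iff e).2 h)
  unfold Pool.Agent.Q161.Ms.FinT at h1
  simp only [FinitePermutations.density_eq, dist_eq_norm, Fintype.mem_piFinset, Finset.mem_Icc, Real.norm_eq_abs] at h1
  exact h1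

lemma commuting_pointwise (e : Fin d → Fin n → (Fin k → ℕ) → ℤ) (h : CommutingMaps e) :
    FinitePermutations.Pointwise 1 e := by
  intro X _ μ _ T h1 h2 h3 f hf
  exact h X μ T h1 h2 (Pool.Agent.H201.Cz.class_commute T h3) f hf

lemma pointwise_commuting (e : Fin d → Fin n → (Fin k → ℕ) → ℤ) (h : FinitePermutations.Pointwise 1 e) :
    CommutingMaps e := by
  intro X _ μ _ T h1 h2 h3 f hf
  exact h X μ T h1 h2 (Pool.Agent.H201.Cz.commute_class T h3) f hf

lemma mp_zpow {X : Type} [MeasurableSpace X] (μ : Measure X) (T : Equiv.Perm X) (h1 : Measurable T.symm)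
    (h2 : MeasurePreserving T μ μ) (k : ℤ) : Measurable (T ^ k).symm ∧ MeasurePreserving (T ^ k : Equiv.Perm X) μ μ :=
  (Pool.Agent.Q161.Ms.mpGroup μ).zpow_mem (x := T) ⟨h1, h2⟩ k

lemma uniform_powers (e : Fin d → Fin n → (Fin k → ℕ) → ℤ) (h : FinitePermutations.UniformRate 1 e) :
    PowersOfOneMap e := by
  intro ε hε Φ
  obtain ⟨K, hK⟩ := h ε hε Φ
  refine ⟨K, fun X _ μ _ T h1 h2 a f hf hb => ?_⟩
  refine hK X μ (fun i => T ^ a i) (fun i => (mp_zpow μ T h1 h2 _).1) (fun i => (mp_zpow μ T h1 h2 _).2) ?_ f hf hb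
  exact Pool.Agent.H201.Cz.commute_class _ fun i j => Commute.zpow_zpow_self T _ _

/-- the rotation -/
def rot (β : UnitAddCircle) : Equiv.Perm UnitAddCircle := Equiv.addRight β

lemma rot_zpow (β : UnitAddCircle) (k : ℤ) : rot β ^ k = rot (k • β) := by
  apply Equiv.ext
  intro x
  induction k using Int.induction_on generalizing x with
  | zero => simp [rot]
  | succ k ih =>
    rw [zpow_add_one, Equiv.Perm.mul_apply, ih]
    simp only [rot, Equiv.coe_addRight]
    rw [add_smul, one_smul]
    abel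
  | pred k ih =>
    rw [zpow_sub_one, Equiv.Perm.mul_apply, ih]
    have h1 : (rot β)⁻¹ x = x - β := by
      rw [Equiv.Perm.inv_eq_iff_eq]
      simp [rot]
    rw [h1]
    simp only [rot, Equiv.coe_addRight]
    rw [sub_smul, one_smul]
    abel

lemma rot_prod {d : ℕ} (β : Fin d → UnitAddCircle) (x : UnitAddCircle) :
    (List.ofFn fun i => rot (β i)).prod x = x + ∑ i, β i := by
  induction d with
  | zero => simp
  | succ k ih =>
    rw [List.ofFn_succ, List.prod_cons, Equiv.Perm.mul_apply, ih, Fin.sum_univ_succ]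
    simp only [rot, Equiv.coe_addRight]
    abel

lemma avg_rot (α : ℝ) (a : Fin d → ℤ) (e : Fin d → Fin n → (Fin k → ℕ) → ℤ) (f : Fin n → UnitAddCircle → ℝ)
    (x : UnitAddCircle) (M : Fin k → ℕ) :
    avg (fun i => rot (α : UnitAddCircle) ^ a i) e f x M = circleAvg α a e f x M := by
  unfold avg circleAvg
  congr 1
  refine Finset.sum_congr rfl fun m _ => Finset.prod_congr rfl fun j _ => ?_
  congr 1
  have h1 : (List.ofFn fun i => (rot (α : UnitAddCircle) ^ a i) ^ e i j m) =
      List.ofFn fun i => rot ((e i j m * a i) • (α : UnitAddCircle)) := by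
    congr 1
    funext i
    rw [← zpow_mul, rot_zpow, mul_comm]
  rw [h1, rot_prod, Finset.sum_smul]

lemma powers_rotation (α : ℝ) (e : Fin d → Fin n → (Fin k → ℕ) → ℤ) (h : PowersOfOneMap e) : RotationRate α e := by
  intro ε hε Φ
  obtain ⟨K, hK⟩ := h ε hε Φ
  refine ⟨K, fun a f hf hb => ?_⟩
  have hp : IsProbabilityMeasure (volume : Measure UnitAddCircle) := ⟨UnitAddCircle.measure_univ⟩
  have h1 := hK UnitAddCircle volume (rot (α : UnitAddCircle)) (by
    have : (rot (α : UnitAddCircle)).symm = rot (-(α : UnitAddCircle)) := by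
      apply Equiv.ext
      intro x
      rw [Equiv.symm_apply_eq]
      simp [rot]
    rw [this]
    exact measurable_add_const _) (measurePreserving_add_right volume _) a f hf hb
  simp only [avg_rot] at h1
  exact h1

lemma arcs_measurable (A : Set UnitAddCircle) (h : FiniteUnionOfArcs A) : MeasurableSet A := by
  obtain ⟨S, rfl⟩ := h
  refine Finset.measurableSet_biUnion _ fun p _ => ?_
  -- the image of a half open interval
  have h1 : (fun t : ℝ => (t : UnitAddCircle)) '' Set.Ico p.1 p.2 =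
      ⋃ k : ℕ, (fun t : ℝ => (t : UnitAddCircle)) '' Set.Icc p.1 (p.2 - 1 / (k + 1)) := by
    rw [← Set.image_iUnion]
    congr 1
    ext t
    simp only [Set.mem_Ico, Set.mem_iUnion, Set.mem_Icc]
    constructor
    · rintro ⟨h1, h2⟩
      obtain ⟨k, hk⟩ := exists_nat_one_div_lt (show (0 : ℝ) < p.2 - t by linarith)
      exact ⟨k, h1, by linarith⟩
    · rintro ⟨k, h1, h2⟩
      have : (0 : ℝ) < 1 / (k + 1) := by positivity
      exact ⟨h1, by linarith⟩
  rw [h1]
  refine MeasurableSet.iUnion fun k => ?_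
  apply IsClosed.measurableSet
  exact (isCompact_Icc.image (AddCircle.continuous_mk' 1)).isClosed

lemma circle_tr (α : ℝ) (a : Fin d → ℤ) (e : Fin d → Fin n → (Fin k → ℕ) → ℤ) (A : Fin n → Set UnitAddCircle)
    (x : UnitAddCircle) (M : Fin k → ℕ) :
    circleAvg α a e (fun j => (A j).indicator 1) x M = share e (fun i => a i • (α : UnitAddCircle)) A x M := by
  rw [← share_av]
  unfold circleAvg Pool.Agent.Q161.Ms.av Pool.Agent.H201.Cz.Gen.tr
  congr 1
  refine Finset.sum_congr rfl fun m _ => Finset.prod_congr rfl fun j _ => ?_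
  rw [Finset.sum_smul]
  simp only [mul_smul]

lemma rotation_arc (α : ℝ) (e : Fin d → Fin n → (Fin k → ℕ) → ℤ) (h : RotationRate α e) : ArcRate α e := by
  intro ε hε Φ
  obtain ⟨K, hK⟩ := h ε hε Φ
  refine ⟨K, fun a A hA => ?_⟩
  have h1 := hK a (fun j => (A j).indicator 1)
    (fun j => measurable_one.indicator (arcs_measurable _ (hA j))) (by
    intro j x
    by_cases hx : x ∈ A j <;> simp [hx])
  simp only [circle_tr] at h1
  exact h1

/-- **One irrational rotation decides the question for commuting maps and unrestricted boxes.** For arbitrary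
exponents `e_ij : ℕ^k → ℤ`, for example integer polynomials, and every irrational `α` the five statements are
equivalent. -/
theorem result (d k n : ℕ) (e : Fin d → Fin n → (Fin k → ℕ) → ℤ) (α : ℝ) (hα : Irrational α) :
    List.TFAE [CommutingMaps e, PowersOfOneMap e, RotationRate α e, ArcRate α e, CyclicRate e] := by
  tfae_have 1 → 2 := fun h =>
    uniform_powers e (((FinitePermutations.equiv 1 e).1).1 (commuting_pointwise e h))
  tfae_have 2 → 3 := powers_rotation α e
  tfae_have 3 → 4 := rotation_arc α e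
  tfae_have 4 → 5 := fun h => (cyc_iff e).1 (Pool.Agent.H201.Cz.Gen.arc_cyc hα _ _ _ _ _ (arc_iff α e h))
  tfae_have 5 → 1 := fun h =>
    pointwise_commuting e (((FinitePermutations.equiv 1 e).2).2 (cyc_finitary e h))
  tfae_finish

end Pool.Agent.Results.MP_f720ae_an.OneRotation
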